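import Pool.Agent.W620.BM.Stm

/-! Task BM-BOX. -/

set_option autoImplicit false

namespace Pool.Agent.W22.BM

open Pool.Agent.W620.BM

section

variable {d : ℕ} {P : (Fin d → ℝ) → (Fin d → ℝ) → Prop}

lemma box_step (hglue : ∀ a b (i : Fin d) (c : ℝ), a ≤ b → a i ≤ c → c ≤ b i →
      P a (Function.update b i c) → P (Function.update a i c) b → P a b)
    (a b : Fin d → ℝ) (hab : a ≤ b) (hP : ¬ P a b) (S : Finset (Fin d)) :
    ∃ a' b', a ≤ a' ∧ a' ≤ b' ∧ b' ≤ b ∧ (∀ i ∈ S, b' i - a' i = (b i - a i) / 2) ∧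
      (∀ i ∉ S, a' i = a i ∧ b' i = b i) ∧ ¬ P a' b' := by
  induction S using Finset.induction_on with
  | empty => exact ⟨a, b, le_rfl, hab, le_rfl, by simp, by simp, hP⟩
  | insert j S hj ih =>
    obtain ⟨a', b', h1, h2, h3, h4, h5, h6⟩ := ih
    set c : ℝ := (a' j + b' j) / 2 with hc
    have h7 := h2 j
    have hc1 : a' j ≤ c := by rw [hc]; linarith
    have hc2 : c ≤ b' j := by rw [hc]; linarith
    obtain ⟨e1, e2⟩ := h5 j hj
    by_cases hA : P a' (Function.update b' j c)
    · have hB : ¬ P (Function.update a' j c) b' := fun hB => h6 (hglue a' b' j c h2 hc1 hc2 hA hB)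
      refine ⟨Function.update a' j c, b', ?_, ?_, h3, ?_, ?_, hB⟩
      · intro i
        rcases eq_or_ne i j with rfl | hij
        · rw [Function.update_self, ← e1]
          exact hc1
        · rw [Function.update_of_ne hij]
          exact h1 i
      · intro i
        rcases eq_or_ne i j with rfl | hij
        · rw [Function.update_self]
          exact hc2
        · rw [Function.update_of_ne hij]
          exact h2 i
      · intro i hi
        rcases eq_or_ne i j with rfl | hij
        · rw [Function.update_self, hc, e1, e2]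
          ring
        · rw [Function.update_of_ne hij]
          exact h4 i (Finset.mem_of_mem_insert_of_ne hi hij)
      · intro i hi
        rw [Finset.mem_insert, not_or] at hi
        rw [Function.update_of_ne hi.1]
        exact h5 i hi.2
    · refine ⟨a', Function.update b' j c, h1, ?_, ?_, ?_, ?_, hA⟩
      · intro i
        rcases eq_or_ne i j with rfl | hij
        · rw [Function.update_self]
          exact hc1
        · rw [Function.update_of_ne hij]
          exact h2 i
      · intro i
        rcases eq_or_ne i j with rfl | hij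
        · rw [Function.update_self, ← e2]
          exact hc2
        · rw [Function.update_of_ne hij]
          exact h3 i
      · intro i hi
        rcases eq_or_ne i j with rfl | hij
        · rw [Function.update_self, hc, e1, e2]
          ring
        · rw [Function.update_of_ne hij]
          exact h4 i (Finset.mem_of_mem_insert_of_ne hi hij)
      · intro i hi
        rw [Finset.mem_insert, not_or] at hi
        rw [Function.update_of_ne hi.1]
        exact h5 i hi.2

end

theorem box : S_box := by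
  intro d P hloc hglue a b hab
  by_contra hP
  -- the sequence of boxes
  let Q := {q : (Fin d → ℝ) × (Fin d → ℝ) // q.1 ≤ q.2 ∧ ¬ P q.1 q.2}
  have hstep : ∀ q : Q, ∃ q' : Q, q.1.1 ≤ q'.1.1 ∧ q'.1.2 ≤ q.1.2 ∧
      ∀ i, q'.1.2 i - q'.1.1 i = (q.1.2 i - q.1.1 i) / 2 := by
    rintro ⟨⟨x, y⟩, hxy, hPxy⟩
    obtain ⟨a', b', h1, h2, h3, h4, -, h6⟩ := box_step hglue x y hxy hPxy Finset.univ
    exact ⟨⟨⟨a', b'⟩, h2, h6⟩, h1, h3, fun i => h4 i (Finset.mem_univ i)⟩
  choose nx hn1 hn2 hn3 using hstep
  let s : ℕ → Q := fun n => Nat.rec ⟨⟨a, b⟩, hab, hP⟩ (fun _ q => nx q) n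
  have hs0 : s 0 = ⟨⟨a, b⟩, hab, hP⟩ := rfl
  have hss : ∀ n, s (n + 1) = nx (s n) := fun n => rfl
  have hw : ∀ n i, (s n).1.2 i - (s n).1.1 i = (b i - a i) / 2 ^ n := by
    intro n i
    induction n with
    | zero => simp [hs0]
    | succ n ih =>
      rw [hss, hn3, ih, pow_succ]
      field_simp
  have hmono : ∀ i, Monotone fun n => (s n).1.1 i := fun i =>
    monotone_nat_of_le_succ fun n => by
      rw [hss]
      exact hn1 (s n) i
  have hanti : ∀ i, Antitone fun n => (s n).1.2 i := fun i =>
    antitone_nat_of_succ_le fun n => by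
      rw [hss]
      exact hn2 (s n) i
  let θ : Fin d → ℝ := fun i => ⨆ n, (s n).1.1 i
  have hθ : ∀ i n, (s n).1.1 i ≤ θ i ∧ θ i ≤ (s n).1.2 i := by
    intro i n
    have h1 := Monotone.ciSup_mem_iInter_Icc_of_antitone (hmono i) (hanti i)
      (fun n => (s n).2.1 i)
    exact Set.mem_iInter.1 h1 n
  obtain ⟨ε, hε, hPε⟩ := hloc θ
  have hev : ∀ᶠ n : ℕ in Filter.atTop, ∀ i, (b i - a i) / 2 ^ n < ε := by
    rw [Filter.eventually_all]
    intro i
    have h1 : Filter.Tendsto (fun n : ℕ => (b i - a i) / 2 ^ n) Filter.atTop (nhds 0) := by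
      have h2 := (tendsto_pow_atTop_nhds_zero_of_lt_one (r := (1 / 2 : ℝ)) (by norm_num)
        (by norm_num)).const_mul (b i - a i)
      rw [mul_zero] at h2
      refine h2.congr fun n => ?_
      rw [one_div, inv_pow, div_eq_mul_inv]
    exact h1.eventually (gt_mem_nhds hε)
  obtain ⟨n, hn⟩ := hev.exists
  apply (s n).2.2
  apply hPε _ _ (s n).2.1
  intro i
  obtain ⟨h1, h2⟩ := hθ i n
  have h3 := hw n i
  have h4 := hn i
  rw [abs_lt, abs_lt]
  refine ⟨⟨?_, ?_⟩, ?_, ?_⟩ <;> linarith

end Pool.Agent.W22.BM
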