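import Pool.Agent.W620.BM.Stm

/-! Task BM-IDEM. -/

set_option autoImplicit false

namespace Pool.Agent.W22.BM

open Pool.Agent.W620.BM Topology Filter

section

variable {A : Type} [NormedRing A]

/-- Newton step -/
def nw (a : A) : A := 3 • (a * a) - 2 • (a * a * a)

/-- iterates -/
def it (a : A) : ℕ → A
  | 0 => a
  | k + 1 => nw (it a k)

lemma nw_sub (a : A) : nw a - a = (a * a - a) - 2 • (a * (a * a - a)) := by
  simp only [nw, mul_sub, smul_sub, mul_assoc]
  abel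

lemma nw_q (a : A) : nw a * nw a - nw a =
    4 • ((a * a - a) * (a * a - a) * (a * a - a)) - 3 • ((a * a - a) * (a * a - a)) := by
  simp only [nw]
  noncomm_ring

lemma nw_cont : Continuous (nw : A → A) := by
  unfold nw
  fun_prop

lemma it_cont (k : ℕ) : Continuous fun a : A => it a k := by
  induction k with
  | zero => exact continuous_id
  | succ k ih => exact nw_cont.comp ih

lemma q_bound (a : A) (h : ‖a * a - a‖ ≤ 1 / 8) :
    ‖nw a * nw a - nw a‖ ≤ ‖a * a - a‖ / 2 := by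
  rw [nw_q]
  set q := a * a - a with hq
  have h0 := norm_nonneg q
  have h1 : ‖q * q‖ ≤ ‖q‖ * ‖q‖ := norm_mul_le _ _
  have h2 : ‖q * q * q‖ ≤ ‖q‖ * ‖q‖ * ‖q‖ :=
    (norm_mul_le _ _).trans (mul_le_mul_of_nonneg_right h1 h0)
  have h3 : ‖(4 : ℕ) • (q * q * q)‖ ≤ 4 * ‖q * q * q‖ := by
    simpa using norm_nsmul_le (n := 4) (a := q * q * q)
  have h4 : ‖(3 : ℕ) • (q * q)‖ ≤ 3 * ‖q * q‖ := by
    simpa using norm_nsmul_le (n := 3) (a := q * q)
  have h5 := norm_sub_le ((4 : ℕ) • (q * q * q)) ((3 : ℕ) • (q * q))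
  have h6 : ‖q‖ * ‖q‖ ≤ ‖q‖ / 8 := by nlinarith
  have h7 : ‖q‖ * ‖q‖ * ‖q‖ ≤ ‖q‖ / 64 := by nlinarith
  linarith

lemma diff_bound (a : A) : ‖nw a - a‖ ≤ (1 + 2 * ‖a‖) * ‖a * a - a‖ := by
  rw [nw_sub]
  set q := a * a - a with hq
  have h1 : ‖a * q‖ ≤ ‖a‖ * ‖q‖ := norm_mul_le _ _
  have h3 : ‖(2 : ℕ) • (a * q)‖ ≤ 2 * ‖a * q‖ := by
    simpa using norm_nsmul_le (n := 2) (a := a * q)
  have h5 := norm_sub_le q ((2 : ℕ) • (a * q))
  nlinarith

lemma it_bounds (p a : A) (δ : ℝ) (hδ8 : δ ≤ 1 / 8) (hδ : 2 * (3 + 2 * ‖p‖) * δ ≤ 1 / 2)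
    (ha : ‖a - p‖ ≤ 1 / 2) (hq : ‖a * a - a‖ ≤ δ) (k : ℕ) :
    ‖it a k * it a k - it a k‖ ≤ δ / 2 ^ k ∧
      ‖it a k - a‖ ≤ 2 * (3 + 2 * ‖p‖) * δ * (1 - 1 / 2 ^ k) := by
  have hδ0 : 0 ≤ δ := (norm_nonneg _).trans hq
  have hp0 := norm_nonneg p
  induction k with
  | zero => simpa [it] using hq
  | succ k ih =>
    obtain ⟨h1, h2⟩ := ih
    have h2k : (0 : ℝ) < 2 ^ k := by positivity
    have h2k1 : (1 : ℝ) ≤ 2 ^ k := one_le_pow₀ (by norm_num)
    have h3 : δ / 2 ^ k ≤ δ := div_le_self hδ0 h2k1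
    constructor
    · refine (q_bound (it a k) (by linarith)).trans ?_
      rw [pow_succ, ← div_div]
      linarith
    · have h4 := diff_bound (it a k)
      have h5 : ‖it a k‖ ≤ ‖p‖ + 1 := by
        have e : it a k = (it a k - a) + (a - p) + p := by abel
        rw [e]
        have h6 := norm_add_le ((it a k - a) + (a - p)) p
        have h7 := norm_add_le (it a k - a) (a - p)
        have h8 : 2 * (3 + 2 * ‖p‖) * δ * (1 - 1 / 2 ^ k) ≤ 1 / 2 := by
          have h9 : (1 : ℝ) - 1 / 2 ^ k ≤ 1 := by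
            have : (0 : ℝ) < 1 / 2 ^ k := by positivity
            linarith
          calc 2 * (3 + 2 * ‖p‖) * δ * (1 - 1 / 2 ^ k)
              ≤ 2 * (3 + 2 * ‖p‖) * δ * 1 := by
                apply mul_le_mul_of_nonneg_left h9
                positivity
            _ ≤ 1 / 2 := by linarith
        linarith
      have h6 : ‖it a (k + 1) - it a k‖ ≤ (3 + 2 * ‖p‖) * (δ / 2 ^ k) := by
        refine h4.trans ?_
        apply mul_le_mul _ h1 (norm_nonneg _) (by positivity)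
        linarith
      have e : it a (k + 1) - a = (it a (k + 1) - it a k) + (it a k - a) := by abel
      rw [e]
      refine (norm_add_le _ _).trans ?_
      have h7 : 2 * (3 + 2 * ‖p‖) * δ * (1 - 1 / 2 ^ (k + 1)) =
          (3 + 2 * ‖p‖) * (δ / 2 ^ k) + 2 * (3 + 2 * ‖p‖) * δ * (1 - 1 / 2 ^ k) := by
        rw [pow_succ]
        field_simp
        ring
      rw [h7]
      linarith

lemma it_diff (p a : A) (δ : ℝ) (hδ8 : δ ≤ 1 / 8) (hδ : 2 * (3 + 2 * ‖p‖) * δ ≤ 1 / 2)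
    (ha : ‖a - p‖ ≤ 1 / 2) (hq : ‖a * a - a‖ ≤ δ) (k : ℕ) :
    ‖it a (k + 1) - it a k‖ ≤ (3 + 2 * ‖p‖) * δ * (1 / 2) ^ k := by
  obtain ⟨h1, h2⟩ := it_bounds p a δ hδ8 hδ ha hq k
  have hδ0 : 0 ≤ δ := (norm_nonneg _).trans hq
  have hp0 := norm_nonneg p
  have h4 := diff_bound (it a k)
  have h5 : ‖it a k‖ ≤ ‖p‖ + 1 := by
    have e : it a k = (it a k - a) + (a - p) + p := by abel
    rw [e]
    have h6 := norm_add_le ((it a k - a) + (a - p)) p
    have h7 := norm_add_le (it a k - a) (a - p)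
    have h8 : 2 * (3 + 2 * ‖p‖) * δ * (1 - 1 / 2 ^ k) ≤ 1 / 2 := by
      have h9 : (1 : ℝ) - 1 / 2 ^ k ≤ 1 := by
        have : (0 : ℝ) < 1 / 2 ^ k := by positivity
        linarith
      calc 2 * (3 + 2 * ‖p‖) * δ * (1 - 1 / 2 ^ k)
          ≤ 2 * (3 + 2 * ‖p‖) * δ * 1 := by
            apply mul_le_mul_of_nonneg_left h9
            positivity
        _ ≤ 1 / 2 := by linarith
    linarith
  have h6 : ‖it a (k + 1) - it a k‖ ≤ (3 + 2 * ‖p‖) * (δ / 2 ^ k) := by
    refine h4.trans ?_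
    apply mul_le_mul _ h1 (norm_nonneg _) (by positivity)
    linarith
  refine h6.trans (le_of_eq ?_)
  rw [one_div, inv_pow]
  ring

theorem gen [CompleteSpace A] (p : A) (hp : p * p = p) :
    ∃ U ∈ 𝓝 p, ∃ E : A → A, ContinuousOn E U ∧ E p = p ∧
      ∀ a ∈ U, E a * E a = E a ∧ Tendsto (fun k => it a k) atTop (𝓝 (E a)) := by
  obtain ⟨δ, hδ0, hδ8, hδ⟩ : ∃ δ : ℝ, 0 < δ ∧ δ ≤ 1 / 8 ∧ 2 * (3 + 2 * ‖p‖) * δ ≤ 1 / 2 := by
    have hp0 := norm_nonneg p
    refine ⟨1 / (8 * (3 + 2 * ‖p‖)), by positivity, ?_, ?_⟩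
    · apply one_div_le_one_div_of_le (by norm_num)
      linarith
    · field_simp
      norm_num
  set U : Set A := {a | ‖a - p‖ ≤ 1 / 2 ∧ ‖a * a - a‖ ≤ δ} with hU
  have hUp : U ∈ 𝓝 p := by
    have h1 : Tendsto (fun a : A => ‖a - p‖) (𝓝 p) (𝓝 0) := by
      have : Continuous fun a : A => ‖a - p‖ := by fun_prop
      have h2 := this.tendsto p
      simpa using h2
    have h2 : Tendsto (fun a : A => ‖a * a - a‖) (𝓝 p) (𝓝 0) := by
      have : Continuous fun a : A => ‖a * a - a‖ := by fun_prop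
      have h2 := this.tendsto p
      simpa [hp] using h2
    filter_upwards [h1.eventually (gt_mem_nhds (by norm_num : (0 : ℝ) < 1 / 2)),
      h2.eventually (gt_mem_nhds hδ0)] with a h3 h4
    exact ⟨h3.le, h4.le⟩
  have hsum : Summable fun k : ℕ => (3 + 2 * ‖p‖) * δ * (1 / 2 : ℝ) ^ k :=
    (summable_geometric_of_lt_one (by norm_num) (by norm_num)).mul_left _
  have hlim : ∀ a ∈ U, Tendsto (fun k => it a k) atTop
      (𝓝 (a + ∑' k, (it a (k + 1) - it a k))) := by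
    intro a ha
    have hs : Summable fun k => it a (k + 1) - it a k :=
      Summable.of_norm_bounded hsum fun k => it_diff p a δ hδ8 hδ ha.1 ha.2 k
    have h1 := hs.hasSum.tendsto_sum_nat
    simp only [Finset.sum_range_sub] at h1
    have h2 := h1.const_add a
    refine h2.congr fun k => ?_
    change a + (it a k - a) = it a k
    abel
  refine ⟨U, hUp, fun a => a + ∑' k, (it a (k + 1) - it a k), ?_, ?_, ?_⟩
  · apply continuousOn_id.add
    apply continuousOn_tsum (u := fun k : ℕ => (3 + 2 * ‖p‖) * δ * (1 / 2 : ℝ) ^ k)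
    · intro k
      exact ((it_cont (k + 1)).sub (it_cont k)).continuousOn
    · exact hsum
    · intro k a ha
      exact it_diff p a δ hδ8 hδ ha.1 ha.2 k
  · have h1 : ∀ k, it p k = p := by
      intro k
      induction k with
      | zero => rfl
      | succ k ih =>
        rw [it, ih, nw, hp, hp]
        abel
    simp [h1]
  · intro a ha
    refine ⟨?_, hlim a ha⟩
    set e := a + ∑' k, (it a (k + 1) - it a k) with he
    have h1 : Tendsto (fun k => it a k * it a k - it a k) atTop (𝓝 (e * e - e)) :=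
      ((hlim a ha).mul (hlim a ha)).sub (hlim a ha)
    have h2 : Tendsto (fun k => it a k * it a k - it a k) atTop (𝓝 0) := by
      have h3 : Tendsto (fun k : ℕ => δ * (1 / 2 : ℝ) ^ k) atTop (𝓝 0) := by
        have h4 := (tendsto_pow_atTop_nhds_zero_of_lt_one (r := (1 / 2 : ℝ)) (by norm_num)
          (by norm_num)).const_mul δ
        rwa [mul_zero] at h4
      apply squeeze_zero_norm _ h3
      intro k
      refine (it_bounds p a δ hδ8 hδ ha.1 ha.2 k).1.trans (le_of_eq ?_)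
      rw [one_div, inv_pow, div_eq_mul_inv]
    exact sub_eq_zero.1 (tendsto_nhds_unique h1 h2)

end

section

attribute [local instance] Matrix.linftyOpNormedAddCommGroup Matrix.linftyOpNormedSpace
  Matrix.linftyOpNormedRing Matrix.linftyOpNormedAlgebra

theorem idem : S_idem := by
  intro N p hp
  obtain ⟨U, hU, E, hE, hEp, h⟩ := gen p hp
  refine ⟨U, hU, E, hE, hEp, fun a ha => ⟨(h a ha).1, fun V hV haV => ?_⟩⟩
  have hk : ∀ k, it a k ∈ V := by
    intro k
    induction k with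
    | zero => exact haV
    | succ k ih =>
      rw [it, nw]
      exact V.sub_mem (V.nsmul_mem (hV _ ih _ ih) _)
        (V.nsmul_mem (hV _ (hV _ ih _ ih) _ ih) _)
  have hcl : IsClosed (V : Set (Mat N)) := V.closed_of_finiteDimensional
  exact hcl.mem_of_tendsto (h a ha).2 (Eventually.of_forall hk)

end

end Pool.Agent.W22.BM
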