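import Pool.Agent.W620.BM.Stm

/-! Task BM-SQ. -/

set_option autoImplicit false

namespace Pool.Agent.W22.BM

open Pool.Agent.W620.BM

section

variable {p : ℕ} [hp : Fact p.Prime]

lemma even_val (a : ℚ) (ha : a ≠ 0) (c : ℚ_[p]) (hc : c ≠ 0)
    (h : ‖c‖ ^ 2 * ‖(a : ℚ_[p])‖ = 1) : Even (padicValRat p a) := by
  have ha' : (a : ℚ_[p]) ≠ 0 := by exact_mod_cast ha
  have hp0 : (0 : ℝ) < p := by exact_mod_cast hp.out.pos
  have hp1 : (1 : ℝ) < p := by exact_mod_cast hp.out.one_lt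
  rw [Padic.norm_eq_zpow_neg_valuation hc, Padic.norm_eq_zpow_neg_valuation ha',
    Padic.valuation_ratCast, ← zpow_natCast, ← zpow_mul, ← zpow_add₀ hp0.ne'] at h
  have h1 : (p : ℝ) ^ (-c.valuation * ((2 : ℕ) : ℤ) + -padicValRat p a) = (p : ℝ) ^ (0 : ℤ) := by
    rw [h, zpow_zero]
  have h2 := zpow_right_injective₀ hp0 hp1.ne' h1
  rw [Int.even_iff]
  push_cast at h2
  omega

lemma even_nat (a : ℚ) (ha : a ≠ 0) (h : Even (padicValRat p a)) :
    Even (padicValNat p (a.num.natAbs * a.den)) := by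
  have h1 : a.num.natAbs ≠ 0 := Int.natAbs_ne_zero.2 (Rat.num_ne_zero.2 ha)
  rw [padicValNat.mul h1 a.den_ne_zero]
  rw [padicValRat_def, padicValInt] at h
  rw [Int.even_iff] at h
  rw [Nat.even_iff]
  omega

end

lemma isSquare_of_even (n : ℕ) (hn : n ≠ 0)
    (h : ∀ p : ℕ, p.Prime → Even (padicValNat p n)) : ∃ b, b ^ 2 = n := by
  obtain ⟨a, b, hab, hsq⟩ := Nat.sq_mul_squarefree n
  refine ⟨b, ?_⟩
  have ha0 : a ≠ 0 := by
    rintro rfl
    simp at hab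
    exact hn hab.symm
  have hb0 : b ^ 2 ≠ 0 := by
    intro h0
    rw [h0, zero_mul] at hab
    exact hn hab.symm
  have ha1 : a = 1 := by
    by_contra hne
    obtain ⟨p, hp, hpa⟩ := Nat.exists_prime_and_dvd hne
    have : Fact p.Prime := ⟨hp⟩
    have h1 := h p hp
    rw [← hab, padicValNat.mul hb0 ha0, padicValNat.pow] at h1
    have h2 : padicValNat p a = 1 := by
      have h3 : 1 ≤ padicValNat p a := one_le_padicValNat_of_dvd ha0 hpa
      have h4 : ¬ p ^ 2 ∣ a := by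
        intro h5
        have := hsq p (by rwa [← pow_two])
        exact hp.one_lt.ne' (Nat.isUnit_iff.1 this)
      rw [padicValNat_dvd_iff_le ha0] at h4
      omega
    rw [h2, Nat.even_iff] at h1
    omega
  rw [ha1, mul_one] at hab
  exact hab

theorem gsq : S_gsq := by
  intro a ha h
  have ha0 : a ≠ 0 := ha.ne'
  have hn : a.num.natAbs * a.den ≠ 0 :=
    mul_ne_zero (Int.natAbs_ne_zero.2 (Rat.num_ne_zero.2 ha0)) a.den_ne_zero
  obtain ⟨b, hb⟩ := isSquare_of_even _ hn (by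
    intro p hp
    have : Fact p.Prime := ⟨hp⟩
    obtain ⟨c, hc⟩ := h p this
    apply even_nat a ha0
    apply even_val a ha0 c
    · rintro rfl
      norm_num at hc
    · rw [← norm_pow, ← norm_mul, hc, norm_one])
  refine ⟨(b : ℚ) / a.den, ?_⟩
  have hden : (a.den : ℚ) ≠ 0 := by exact_mod_cast a.den_ne_zero
  have h1 : ((b : ℚ)) ^ 2 = a.num * a.den := by
    have h2 : ((b ^ 2 : ℕ) : ℚ) = ((a.num.natAbs * a.den : ℕ) : ℚ) := by rw [hb]
    push_cast at h2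
    rw [h2]
    have h3 : ((a.num.natAbs : ℤ)) = a.num := Int.natAbs_of_nonneg (Rat.num_pos.2 ha).le
    have h4 : ((a.num.natAbs : ℕ) : ℚ) = (a.num : ℚ) := by rw [← Int.cast_natCast, h3]
    rw [h4]
  rw [div_pow, h1, pow_two, mul_div_mul_right _ _ hden, Rat.num_div_den]

section

variable {p : ℕ} [hp : Fact p.Prime]

/-- `x ^ 2 + 1` is a unit if `p ≡ 3 mod 4` -/
lemma norm_sq_add_one (hp3 : p % 4 = 3) (w : ℤ_[p]) : ‖w ^ 2 + 1‖ = 1 := by
  by_contra h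
  have h1 : ‖w ^ 2 + 1‖ < 1 := lt_of_le_of_ne (PadicInt.norm_le_one _) h
  have h2 : PadicInt.toZMod (w ^ 2 + 1) = 0 := by
    rw [← RingHom.mem_ker, PadicInt.ker_toZMod, IsLocalRing.mem_maximalIdeal, mem_nonunits_iff,
      PadicInt.isUnit_iff]
    exact h
  rw [map_add, map_pow, map_one] at h2
  have h3 : IsSquare (-1 : ZMod p) := ⟨PadicInt.toZMod w, by
    rw [← pow_two]
    exact (eq_neg_of_add_eq_zero_left h2).symm⟩
  exact (ZMod.exists_sq_eq_neg_one_iff.1 h3) hp3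

lemma norm_sum_sq_aux (hp3 : p % 4 = 3) (u v : ℚ_[p]) (hv : v ≠ 0) (huv : ‖u‖ ≤ ‖v‖) :
    ‖u ^ 2 + v ^ 2‖ = ‖v‖ ^ 2 := by
  have hv0 : 0 < ‖v‖ := norm_pos_iff.2 hv
  have h1 : ‖u / v‖ ≤ 1 := by
    rw [norm_div, div_le_one hv0]
    exact huv
  have h2 := norm_sq_add_one hp3 (⟨u / v, h1⟩ : ℤ_[p])
  have h3 : ‖(u / v) ^ 2 + 1‖ = 1 := h2
  have h4 : u ^ 2 + v ^ 2 = v ^ 2 * ((u / v) ^ 2 + 1) := by
    field_simp
  rw [h4, norm_mul, h3, mul_one, norm_pow]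

lemma exists_norm_sum_sq (hp3 : p % 4 = 3) (u v : ℚ_[p]) (h : u ^ 2 + v ^ 2 ≠ 0) :
    ∃ c : ℚ_[p], c ≠ 0 ∧ ‖u ^ 2 + v ^ 2‖ = ‖c‖ ^ 2 := by
  rcases le_total ‖u‖ ‖v‖ with h1 | h1
  · have hv : v ≠ 0 := by
      rintro rfl
      rw [norm_zero] at h1
      have : u = 0 := norm_le_zero_iff.1 h1
      apply h
      rw [this]
      ring
    exact ⟨v, hv, norm_sum_sq_aux hp3 u v hv h1⟩
  · have hu : u ≠ 0 := by
      rintro rfl
      rw [norm_zero] at h1
      have : v = 0 := norm_le_zero_iff.1 h1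
      apply h
      rw [this]
      ring
    refine ⟨u, hu, ?_⟩
    rw [add_comm]
    exact norm_sum_sq_aux hp3 v u hu h1

end

instance : Fact (Nat.Prime 2) := ⟨Nat.prime_two⟩

lemma no_two_aux (w : ℤ_[2]) : ¬ ‖w ^ 2 + 1‖ ≤ (2 : ℝ) ^ (-(2 : ℕ) : ℤ) := by
  intro h
  have h1 := (PadicInt.norm_le_pow_iff_mem_span_pow (p := 2) (w ^ 2 + 1) 2).1 (by exact_mod_cast h)
  have h2 : PadicInt.toZModPow (p := 2) 2 (w ^ 2 + 1) = 0 := by
    rw [← RingHom.mem_ker, PadicInt.ker_toZModPow]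
    exact h1
  rw [map_add, map_pow, map_one] at h2
  have h3 : ∀ z : ZMod (2 ^ 2), z ^ 2 + 1 ≠ 0 := by decide
  exact h3 _ h2

lemma no_two (s t : ℚ_[2]) : s ^ 2 + t ^ 2 ≠ -1 := by
  intro h
  by_cases hs : ‖s‖ ≤ 1 ∧ ‖t‖ ≤ 1
  · -- integral
    obtain ⟨hs, ht⟩ := hs
    set s' : ℤ_[2] := ⟨s, hs⟩
    set t' : ℤ_[2] := ⟨t, ht⟩
    have h1 : s' ^ 2 + t' ^ 2 = -1 := by
      apply Subtype.ext
      exact h
    have h2 := congrArg (PadicInt.toZModPow (p := 2) 2) h1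
    rw [map_add, map_pow, map_pow, map_neg, map_one] at h2
    have h3 : ∀ y z : ZMod (2 ^ 2), y ^ 2 + z ^ 2 ≠ -1 := by decide
    exact h3 _ _ h2
  · -- not integral
    have key : ∀ s t : ℚ_[2], s ^ 2 + t ^ 2 = -1 → ‖s‖ ≤ ‖t‖ → ¬ 1 < ‖t‖ := by
      intro s t h hst ht
      have ht0 : t ≠ 0 := by
        rintro rfl
        rw [norm_zero] at ht
        linarith
      have hw : ‖s / t‖ ≤ 1 := by
        rw [norm_div, div_le_one (by linarith)]
        exact hst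
      let w : ℤ_[2] := ⟨s / t, hw⟩
      apply no_two_aux w
      have h1 : (s / t) ^ 2 + 1 = -1 / t ^ 2 := by
        rw [← h]
        field_simp
      change ‖(s / t) ^ 2 + 1‖ ≤ _
      rw [h1, norm_div, norm_neg, norm_one, norm_pow]
      have h3 : (2 : ℝ) ≤ ‖t‖ := by
        rw [Padic.norm_eq_zpow_neg_valuation ht0] at ht ⊢
        have h4 : 0 < -t.valuation := by
          by_contra hcon
          push Not at hcon
          have : ((2 : ℕ) : ℝ) ^ (-t.valuation) ≤ 1 :=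
            zpow_le_one_of_nonpos₀ (by norm_num) hcon
          linarith
        calc (2 : ℝ) = ((2 : ℕ) : ℝ) ^ (1 : ℤ) := by norm_num
          _ ≤ ((2 : ℕ) : ℝ) ^ (-t.valuation) := by
              apply zpow_le_zpow_right₀ (by norm_num)
              omega
      have h5 : (2 : ℝ) ^ (-(2 : ℕ) : ℤ) = 1 / 4 := by norm_num
      rw [h5]
      apply one_div_le_one_div_of_le (by norm_num)
      nlinarith
    rw [not_and_or, not_le, not_le] at hs
    rcases le_total ‖s‖ ‖t‖ with h1 | h1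
    · apply key s t h h1
      rcases hs with h2 | h2
      · exact lt_of_lt_of_le h2 h1
      · exact h2
    · apply key t s (by rw [add_comm]; exact h) h1
      rcases hs with h2 | h2
      · exact h2
      · exact lt_of_lt_of_le h2 h1

theorem twosq : S_twosq := by
  intro a ha
  by_contra hcon
  push Not at hcon
  have ha0 : a ≠ 0 := ha.ne
  have hn : ∃ x y : ℕ, a.num.natAbs * a.den = x ^ 2 + y ^ 2 := by
    rw [Nat.eq_sq_add_sq_iff]
    intro q hq hq3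
    have hqp := Nat.prime_of_mem_primeFactors hq
    have : Fact q.Prime := ⟨hqp⟩
    obtain ⟨u, v, huv⟩ := hcon q this
    have h0 : u ^ 2 + v ^ 2 ≠ 0 := by
      intro h0
      rw [h0, mul_zero] at huv
      exact zero_ne_one huv
    obtain ⟨c, hc, hc2⟩ := exists_norm_sum_sq hq3 u v h0
    apply even_nat a ha0
    apply even_val a ha0 c hc
    rw [← hc2, ← norm_mul, mul_comm, huv, norm_one]
  obtain ⟨x, y, hxy⟩ := hn
  have hden : (a.den : ℚ) ≠ 0 := by exact_mod_cast a.den_ne_zero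
  have h1 : -a = ((x : ℚ) / a.den) ^ 2 + ((y : ℚ) / a.den) ^ 2 := by
    have h2 : ((a.num.natAbs * a.den : ℕ) : ℚ) = ((x ^ 2 + y ^ 2 : ℕ) : ℚ) := by rw [hxy]
    push_cast at h2
    have h3 : ((a.num.natAbs : ℤ)) = -a.num := by
      rw [Int.ofNat_natAbs_of_nonpos (Rat.num_neg.2 ha).le]
    have h4 : ((a.num.natAbs : ℕ) : ℚ) = -(a.num : ℚ) := by
      rw [← Int.cast_natCast, h3, Int.cast_neg]
    rw [h4] at h2
    rw [div_pow, div_pow, ← add_div, ← h2, pow_two, mul_div_mul_right _ _ hden, neg_div,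
      Rat.num_div_den]
  obtain ⟨u, v, huv⟩ := hcon 2 inferInstance
  have h2 : -(a : ℚ_[2]) = (((x : ℚ) / a.den : ℚ) : ℚ_[2]) ^ 2 +
      (((y : ℚ) / a.den : ℚ) : ℚ_[2]) ^ 2 := by
    rw [← Rat.cast_neg, h1, Rat.cast_add, Rat.cast_pow, Rat.cast_pow]
  set X : ℚ_[2] := (((x : ℚ) / a.den : ℚ) : ℚ_[2])
  set Y : ℚ_[2] := (((y : ℚ) / a.den : ℚ) : ℚ_[2])
  apply no_two (X * u - Y * v) (X * v + Y * u)
  have h3 : (X * u - Y * v) ^ 2 + (X * v + Y * u) ^ 2 = (X ^ 2 + Y ^ 2) * (u ^ 2 + v ^ 2) := by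
    ring
  rw [h3, ← h2, neg_mul, huv]

end Pool.Agent.W22.BM
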